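import Pool.Agent.TPU.Pub3

/-!
# MP_4f9c46_ag: tame purity in dimension one over an arbitrary base, `n ≤ 1`

`S` is any scheme of characteristic `p`, `X` a locally noetherian `S`-scheme, `Z ⊆ X` a closed subset
such that the local ring `O_{X,z}` is a discrete valuation ring for all `z ∈ Z`, `U = X \ Z`.
The definitions are in `Pool/Agent/TPU/Pub.lean`, `Pub2.lean` and `Pub3.lean` (with parts of
`Defs.lean` and `Defs3.lean`):

* `TPQ.Pv`, `TPQ.IsSval`: points with valuations and `S`-valuations;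
* `TPQ.Tame`: tamely ramified extensions of valuation rings;
* `TPQ.Cov`: the tame covering sieves; `TPQ.tame f p`: the tame topology on `X.Etale`;
* `TPQ.TSh f p r`: sheaves of `ℤ/p^r`-modules on the tame site `(X/S)_t`;
* `TPQ.HT`: the functor of the sections with support in `Z`, the kernel of `F ⟶ j_* j^* F`
  (that is, `i_* i^! F`); `TPQ.RHT f p r hZ q`: its right derived functors;
* `TPQ.LamSh f p r`: the constant sheaf `ℤ/p^r` (`n = 0`);
* `TPQ.GmSh f p r`: the étale sheaf `G_m/p^r` (`n = 1`; isomorphic to `W_rΩ^1_log` by `dlog`);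
* `TPQ.ZSh f p r Z`: the constant sheaf `ℤ/p^r` on `Z`, as a sheaf on `(X/S)_t`.
-/

set_option autoImplicit false

universe u

open CategoryTheory Limits AlgebraicGeometry TPU TPQ

/-- Tame purity in dimension one for `n = 0` and `n = 1`. -/
theorem Pool.Agent.Results.MP_4f9c46_ag.TamePurityDimOne.result (p r : ℕ) [Fact p.Prime]
    (X S : Scheme.{u}) (f : X ⟶ S) [IsLocallyNoetherian X] (hS : (p : Γ(S, ⊤)) = 0)
    (Z : Set X) (hZ : IsClosed Z) (hD : ∀ z ∈ Z, IsDvr (X.presheaf.stalk z)) :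
    -- the covering sieves of the tame topology are the tame covering sieves
    (∀ (U : X.Etale) (R : Sieve U), R ∈ TPQ.tame f p U ↔ TPQ.Cov f p R) ∧
    -- `n = 0`: all derived functors of the sections with support vanish on `ℤ/p^r`
    (∀ q : ℕ, IsZero ((RHT f p r hZ q).obj (LamSh f p r))) ∧
    -- `n = 1`: for `G_m/p^r` only the first one does not vanish, and it is `ℤ/p^r` on `Z`
    IsZero ((RHT f p r hZ 0).obj (GmSh f p r)) ∧
    Nonempty ((RHT f p r hZ 1).obj (GmSh f p r) ≅ ZSh f p r Z) ∧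
    ∀ q : ℕ, IsZero ((RHT f p r hZ (q + 2)).obj (GmSh f p r)) :=
  ⟨pub_cov p r X S f hS Z hZ hD,
    pub_zero p r X S f hS Z hZ hD _ (tame_eq f p) (Lam_sheaf f p r),
    pub_one p r X S f hS Z hZ hD _ (tame_eq f p) (Gm_sheaf f p r) (Z_sheaf f p r Z)⟩
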