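import Pool.Agent.TPU.Pub3

/-!
# MP_4f9c46_ag: sections with support on the tame site in dimension one, all coefficient sheaves

`S` is any scheme of characteristic `p`, `X` a locally noetherian `S`-scheme, `Z ⊆ X` a closed subset
such that the local ring `O_{X,z}` is a discrete valuation ring for all `z ∈ Z`, `j : X \ Z ⟶ X`.
The definitions are in `Pool/Agent/TPU/Pub.lean`, `Pub2.lean` and `Pub3.lean` (with parts of
`Defs.lean`):

* `TPQ.Pv`, `TPQ.IsSval`: points with valuations and `S`-valuations;
* `TPQ.Tame`: tamely ramified extensions of valuation rings;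
* `TPQ.Cov`: the tame covering sieves; `TPQ.tame f p`: the tame topology on `X.Etale`;
* `TPQ.TSh f p r`: sheaves of `ℤ/p^r`-modules on the tame site `(X/S)_t`;
* `TPQ.TU`: the functor `j_* j^*`; `TPQ.etaT`: `F ⟶ j_* j^* F`; `TPQ.HT`: its kernel, the functor of
  the sections with support in `Z` (that is, `i_* i^! F`); `TPQ.RHT f p r hZ q`: the right derived
  functors of `TPQ.HT f p r hZ`.
-/

set_option autoImplicit false

universe u

open CategoryTheory Limits AlgebraicGeometry TPU TPQ

/-- For every sheaf `F` of `ℤ/p^r`-modules on the tame site, the complex computing the sections with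
support in `Z` is `F ⟶ j_* j^* F`: its cohomology is the kernel, the cokernel, and zero in all degrees
at least two. -/
theorem Pool.Agent.Results.MP_4f9c46_ag.TameSupportDegrees.result (p r : ℕ) [Fact p.Prime]
    (X S : Scheme.{u}) (f : X ⟶ S) [IsLocallyNoetherian X] (hS : (p : Γ(S, ⊤)) = 0)
    (Z : Set X) (hZ : IsClosed Z) (hD : ∀ z ∈ Z, IsDvr (X.presheaf.stalk z)) :
    -- the covering sieves of the tame topology are the tame covering sieves
    (∀ (U : X.Etale) (R : Sieve U), R ∈ TPQ.tame f p U ↔ TPQ.Cov f p R) ∧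
    ∀ F : TSh f p r,
      Nonempty ((RHT f p r hZ 0).obj F ≅ (HT f p r hZ).obj F) ∧
      Nonempty ((RHT f p r hZ 1).obj F ≅ cokernel (etaT f p r hZ F)) ∧
      ∀ q : ℕ, IsZero ((RHT f p r hZ (q + 2)).obj F) :=
  ⟨pub_cov p r X S f hS Z hZ hD, pub_all p r X S f hS Z hZ hD _ (tame_eq f p)⟩
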